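import Pool.Agent.Work.MP_64ea0f_cs.InterfaceF

set_option autoImplicit false

/-! Block GAM (helper90). -/

namespace Pool.CS
namespace GAMx

/-- elements with a multiple in `B` are killed by one multiple -/
theorem sat_exp {Λ : Type} [Finite Λ] (B : AddSubgroup (Λ → ℤ)) :
    ∃ k : ℕ, 0 < k ∧ ∀ y : Λ → ℤ, (∃ n : ℕ, 0 < n ∧ n • y ∈ B) → k • y ∈ B := by
  classical
  let U : Submodule ℤ (Λ → ℤ) :=
    { carrier := {y | ∃ n : ℕ, 0 < n ∧ n • y ∈ B}
      zero_mem' := ⟨1, one_pos, by simp [B.zero_mem]⟩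
      add_mem' := by
        rintro x y ⟨n, hn, hx⟩ ⟨m, hm, hy⟩
        refine ⟨n * m, Nat.mul_pos hn hm, ?_⟩
        rw [smul_add]
        refine B.add_mem ?_ ?_
        · rw [mul_comm, mul_smul]; exact B.nsmul_mem hx m
        · rw [mul_smul]; exact B.nsmul_mem hy n
      smul_mem' := by
        rintro c x ⟨n, hn, hx⟩
        refine ⟨n, hn, ?_⟩
        rw [smul_comm]
        exact B.zsmul_mem hx c }
  have hU : U.FG := IsNoetherian.noetherian U
  obtain ⟨s, hs⟩ := hU
  have hsU : ∀ u ∈ s, ∃ n : ℕ, 0 < n ∧ n • u ∈ B := by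
    intro u hu
    have : u ∈ U := by rw [← hs]; exact Submodule.subset_span hu
    exact this
  choose! f hf using hsU
  refine ⟨∏ u ∈ s, f u, Finset.prod_pos fun u hu => (hf u hu).1, ?_⟩
  have key : ∀ y ∈ Submodule.span ℤ (s : Set (Λ → ℤ)), (∏ u ∈ s, f u) • y ∈ B := by
    intro y hy
    induction hy using Submodule.span_induction with
    | mem u hu =>
      obtain ⟨m, hm⟩ := Finset.dvd_prod_of_mem f hu
      rw [hm, mul_comm, mul_smul]
      exact B.nsmul_mem (hf u hu).2 m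
    | zero => rw [smul_zero]; exact B.zero_mem
    | add x y hx hy h1 h2 =>
      rw [smul_add]
      exact B.add_mem h1 h2
    | smul c x hx h1 =>
      rw [smul_comm]
      exact B.zsmul_mem h1 c
  intro y hy
  apply key
  rw [hs]
  exact hy

theorem fg_sub {Λ : Type} [Finite Λ] (B : Subgroup (Multiplicative (Λ → ℤ))) : B.FG := by
  have h1 : (Subgroup.toAddSubgroup' B).FG := by
    have h2 : (AddSubgroup.toIntSubmodule (Subgroup.toAddSubgroup' B)).FG :=
      IsNoetherian.noetherian _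
    rw [Submodule.fg_iff_addSubgroup_fg] at h2
    exact h2
  rw [AddSubgroup.fg_iff_mul_fg] at h1
  exact h1

/-- group theoretic core -/
theorem core {W P Λ : Type} [Group W] [Group P] [Finite Λ] (inc : P →* W)
    (hinj : Function.Injective inc) (hfi : inc.range.FiniteIndex) (C : Subgroup W)
    (θ : P →* Multiplicative (Λ → ℤ)) (hθ : ∀ g, inc g ∈ C → θ g = 1 → g = 1) :
    ∃ A : Subgroup W, A ≤ C ∧
      (∃ M0 : Subgroup W, M0.Normal ∧ M0.FiniteIndex ∧ M0 ⊓ C ≤ A) ∧
      (∀ x ∈ A, ∀ y ∈ A, x * y = y * x) ∧ A.FG ∧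
      ∀ N ≤ A, N.relIndex A ≠ 0 → ∃ M : Subgroup W, M.Normal ∧ M.FiniteIndex ∧ M ⊓ A ≤ N := by
  classical
  have hinj2 : ∀ g g' : P, inc g ∈ C → inc g' ∈ C → θ g = θ g' → g = g' := by
    intro g g' hg hg' h
    have h1 : g * g'⁻¹ = 1 := by
      apply hθ
      · rw [map_mul, map_inv]; exact mul_mem hg (inv_mem hg')
      · rw [map_mul, map_inv, h, mul_inv_cancel]
    exact mul_inv_eq_one.mp h1
  have hmap : ∀ (Q : Subgroup P), Q.FiniteIndex → (Q.map inc).FiniteIndex := by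
    intro Q hQ
    constructor
    rw [Subgroup.index_map_of_injective Q hinj]
    exact mul_ne_zero hQ.index_ne_zero hfi.index_ne_zero
  refine ⟨C ⊓ inc.range, inf_le_left, ⟨inc.range.normalCore, inferInstance, inferInstance, ?_⟩,
    ?_, ?_, ?_⟩
  · intro x hx
    exact ⟨hx.2, Subgroup.normalCore_le _ hx.1⟩
  · rintro x ⟨hx, g, rfl⟩ y ⟨hy, g', rfl⟩
    rw [← map_mul, ← map_mul]
    congr 1
    apply hinj2
    · rw [map_mul]; exact mul_mem hx hy
    · rw [map_mul]; exact mul_mem hy hx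
    · rw [map_mul, map_mul, mul_comm]
  · -- finitely generated
    have h1 : C ⊓ inc.range = (C.comap inc).map inc := by
      rw [Subgroup.map_comap_eq, inf_comm]
    rw [h1]
    rw [Subgroup.fg_iff_submonoid_fg, Subgroup.map_toSubmonoid]
    refine Submonoid.FG.map ?_ inc
    rw [← Subgroup.fg_iff_submonoid_fg]
    let θ0 : (C.comap inc) →* Multiplicative (Λ → ℤ) := θ.comp (C.comap inc).subtype
    have hθ0 : Function.Injective θ0 := by
      intro g g' h
      apply Subtype.ext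
      exact hinj2 g.1 g'.1 g.2 g'.2 h
    have h2 : Group.FG θ0.range := (Group.fg_iff_subgroup_fg _).mpr (fg_sub _)
    have h3 : Group.FG (C.comap inc) := by
      have e := MonoidHom.ofInjective hθ0
      exact Group.fg_of_surjective (f := e.symm.toMonoidHom) e.symm.surjective
    exact (Group.fg_iff_subgroup_fg _).mp h3
  · intro N hN hNi
    -- the image of `N`
    let B : AddSubgroup (Λ → ℤ) := Subgroup.toAddSubgroup' ((N.comap inc).map θ)
    have hB : ∀ v : Λ → ℤ, v ∈ B ↔ ∃ g : P, inc g ∈ N ∧ θ g = Multiplicative.ofAdd v := by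
      intro v
      constructor
      · rintro ⟨g, hg, hgv⟩
        exact ⟨g, hg, hgv⟩
      · rintro ⟨g, hg, hgv⟩
        exact ⟨g, hg, hgv⟩
    obtain ⟨k, hk, hkB⟩ := sat_exp B
    have : NeZero k := ⟨hk.ne'⟩
    -- reduction mod `k`
    let red : Multiplicative (Λ → ℤ) →* Multiplicative (Λ → ZMod k) :=
      AddMonoidHom.toMultiplicative
        ((AddMonoidHom.pi fun b => (Int.castAddHom (ZMod k)).comp (Pi.evalAddMonoidHom _ b)))
    have : Finite (Multiplicative (Λ → ZMod k)) := inferInstance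
    let Q : Subgroup P := (red.comp θ).ker
    have hQ : Q.FiniteIndex := by
      have : Finite (red.comp θ).range := inferInstance
      exact Subgroup.finiteIndex_ker _
    have := hmap Q hQ
    refine ⟨(Q.map inc).normalCore, inferInstance, inferInstance, ?_⟩
    rintro x ⟨hx1, hx2, -⟩
    obtain ⟨g, hg, rfl⟩ := Subgroup.normalCore_le _ hx1
    -- `θ g = k y`
    have hdiv : ∃ y : Λ → ℤ, (θ g).toAdd = k • y := by
      have h4 : red (θ g) = 1 := hg
      have h5 : ∀ b, ((((θ g).toAdd) b : ℤ) : ZMod k) = 0 := by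
        intro b
        have h6 := congrArg (fun z => z.toAdd b) h4
        exact h6
      have h7 : ∀ b, (k : ℤ) ∣ ((θ g).toAdd) b := by
        intro b
        exact (ZMod.intCast_zmod_eq_zero_iff_dvd _ k).mp (h5 b)
      choose y hy using h7
      refine ⟨y, ?_⟩
      funext b
      rw [hy b]
      simp
    obtain ⟨y, hy⟩ := hdiv
    -- a power of `inc g` is in `N`
    have hpow : ∃ m : ℕ, 0 < m ∧ (inc g) ^ m ∈ N := by
      have hgA : inc g ∈ C ⊓ inc.range := ⟨hx2, g, rfl⟩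
      have : (N.subgroupOf (C ⊓ inc.range)).FiniteIndex := ⟨hNi⟩
      obtain ⟨m, hm, hmem⟩ := Subgroup.exists_pow_mem_of_index_ne_zero
        (H := N.subgroupOf (C ⊓ inc.range)) hNi ⟨inc g, hgA⟩
      exact ⟨m, hm, hmem.2⟩
    obtain ⟨m, hm, hmN⟩ := hpow
    have hmB : m • (k • y) ∈ B := by
      rw [hB]
      refine ⟨g ^ m, by rw [map_pow]; exact hmN, ?_⟩
      rw [map_pow, ← hy]
      rfl
    have hyB : k • y ∈ B := by
      apply hkB
      refine ⟨m * k, Nat.mul_pos hm hk, ?_⟩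
      rw [mul_smul]; exact hmB
    rw [hB] at hyB
    obtain ⟨g', hg', hg'2⟩ := hyB
    have h8 : g = g' := by
      apply hinj2 g g' hx2 (hN hg').1
      rw [hg'2, ← hy]
      rfl
    rw [h8]
    exact hg'

end GAMx

open GAMx in
theorem GAM_thm (hAX : Stmt_AX) (hF3 : Stmt_F3) (hLBF : Stmt_LBF) (hLSX : Stmt_LSX)
    (hDEV : Stmt_DEV) : Stmt_GAM := by
  intro D hAF H hD J h hH hE
  have hfin : Finite (D.Lb H) := hLBF D H hD.fin
  obtain ⟨⟨L, hL⟩, -⟩ := hLSX D H hD
  obtain ⟨b, κ, c, hDev, hinj⟩ := hDEV D H hD L hL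
  have huniv : ∀ g : RC (D.lg H), g ∈ rsub (D.lg H) Set.univ := by
    intro g
    induction g using rac_induction with
    | h1 => exact one_mem _
    | h2 s g ih => exact mul_mem (Subgroup.subset_closure ⟨s, Set.mem_univ _, rfl⟩) ih
  obtain ⟨a, -, w, -, hg2, hAx1, L', hL', χ, hχ⟩ :=
    hAX (D.Lb H) (D.lg H) Set.univ (c ⟨h, hH⟩) (huniv _)
  let φ : H →* RC (D.lg H) := (MulAut.conj a⁻¹).toMonoidHom.comp c
  have hφ : ∀ g, φ g = a⁻¹ * c g * a := by
    intro g
    simp [φ]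
  have hHf : H.FiniteIndex := hD.fin
  have hcf : (L'.comap φ).FiniteIndex := by
    constructor
    rw [Subgroup.index_comap]
    have : L'.IsFiniteRelIndex φ.range := Subgroup.isFiniteRelIndex_of_finiteIndex
    exact this.relIndex_ne_zero
  let inc : (L'.comap φ) →* D.W := H.subtype.comp (L'.comap φ).subtype
  have hincinj : Function.Injective inc := by
    intro x y hxy
    exact Subtype.ext (Subtype.ext hxy)
  have hrange : inc.range.FiniteIndex := by
    have h1 : inc.range = (L'.comap φ).map H.subtype := by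
      ext x
      constructor
      · rintro ⟨g, rfl⟩
        exact ⟨g.1, g.2, rfl⟩
      · rintro ⟨g, hg, rfl⟩
        exact ⟨⟨g, hg⟩, rfl⟩
    rw [h1]
    constructor
    rw [Subgroup.index_map_subtype]
    exact mul_ne_zero hcf.index_ne_zero hHf.index_ne_zero
  refine core inc hincinj hrange (D.par J ⊓ Subgroup.centralizer {h})
    (χ.comp (φ.subgroupComap L')) ?_
  intro g hg hθ
  have h2 : g.1.1 * h = h * g.1.1 := by
    have h3 : inc g ∈ Subgroup.centralizer {h} := hg.2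
    rw [Subgroup.mem_centralizer_singleton_iff] at h3
    exact h3
  have h4 : c g.1 * c ⟨h, hH⟩ = c ⟨h, hH⟩ * c g.1 := by
    rw [← map_mul, ← map_mul]
    congr 1
    exact Subtype.ext h2
  have h5 : wp (D.lg H) w = a⁻¹ * (c ⟨h, hH⟩) ^ 2 * a := by
    rw [hg2]; group
  have h6 : φ g.1 * wp (D.lg H) w = wp (D.lg H) w * φ g.1 := by
    rw [hφ, h5]
    have h7 : c g.1 * (c ⟨h, hH⟩) ^ 2 = (c ⟨h, hH⟩) ^ 2 * c g.1 := by
      have h8 : Commute (c g.1) (c ⟨h, hH⟩) := h4
      exact (h8.pow_right 2)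
    calc a⁻¹ * c g.1 * a * (a⁻¹ * (c ⟨h, hH⟩) ^ 2 * a)
        = a⁻¹ * (c g.1 * (c ⟨h, hH⟩) ^ 2) * a := by group
      _ = a⁻¹ * ((c ⟨h, hH⟩) ^ 2 * c g.1) * a := by rw [h7]
      _ = a⁻¹ * (c ⟨h, hH⟩) ^ 2 * a * (a⁻¹ * c g.1 * a) := by group
  have h9 := hχ ⟨φ g.1, g.2⟩ h6 hθ
  have h10 : g.1 = 1 := by
    refine hF3 D hAF H hD L hL b κ c hDev hinj J ⟨h, hH⟩ a w hE ?_ hAx1 g.1 hg.1 ?_
    · rw [map_pow]; exact hg2
    · rw [← hφ]; exact h9
  exact Subtype.ext h10

end Pool.CS
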