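import Pool.Agent.Work.MP_64ea0f_cs.InterfaceF

set_option autoImplicit false

/-! Block F3J (helper90). -/

namespace Pool.CS
namespace F3Jx

theorem B_e (D : Rd) (v : D.V) (t : D.S) : D.B v (D.e t) = ∑ s, v s * D.k s t := by
  unfold Rd.B bform Rd.e
  refine Finset.sum_congr rfl fun s _ => ?_
  rw [Finset.sum_eq_single t]
  · simp
  · intro b _ hb
    simp [hb]
  · intro h
    exact absurd (Finset.mem_univ t) h

theorem refl' (D : Rd) (s : D.S) (v : D.V) : D.ρ (D.σ s) v = v - (2 * D.B v (D.e s)) • D.e s :=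
  D.refl s v

/-- elements of `par T` fix vectors supported in `K` if `T` and `K` are orthogonal -/
theorem fix_of_orth (D : Rd) (K T : Set D.S) (hKT : ∀ s ∈ K, ∀ t ∈ T, D.k s t = 0)
    (q : D.W) (hq : q ∈ D.par T) (v : D.V) (hv : D.In K v) : D.ρ q v = v := by
  unfold Rd.par at hq
  induction hq using Subgroup.closure_induction with
  | mem x hx =>
    obtain ⟨t, ht, rfl⟩ := hx
    rw [refl', B_e]
    have h0 : ∑ s, v s * D.k s t = 0 := by
      refine Finset.sum_eq_zero fun s _ => ?_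
      by_cases hs : s ∈ K
      · rw [hKT s hs t ht, mul_zero]
      · rw [hv s hs, zero_mul]
    rw [h0]
    simp
  | one => simp
  | mul x y _ _ hx hy => rw [map_mul, Module.End.mul_apply, hy, hx]
  | inv x _ hx =>
    have h1 : D.ρ x⁻¹ (D.ρ x v) = v := by
      rw [← Module.End.mul_apply, ← map_mul, inv_mul_cancel, map_one, Module.End.one_apply]
    rw [hx] at h1
    exact h1

theorem comm_gen (hBAS : Stmt_BAS) (D : Rd) (s t : D.S) (hst : D.k s t = 0) :
    D.σ s * D.σ t = D.σ t * D.σ s := by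
  obtain ⟨_, _, _, _, _, _, he, _, _, _, _, hconj, _, hrf, _, _⟩ := hBAS D
  have h1 : D.ρ (D.σ t) (D.e s) = D.e s := by
    rw [refl', B_e]
    have h0 : ∑ r, D.e s r * D.k r t = 0 := by
      refine Finset.sum_eq_zero fun r _ => ?_
      by_cases hr : r = s
      · subst hr; rw [hst, mul_zero]
      · unfold Rd.e
        rw [Pi.single_eq_of_ne hr, zero_mul]
    rw [h0]
    simp
  have h2 := hconj (D.e s) (he s) (D.σ t)
  rw [h1, hrf] at h2
  rw [eq_mul_inv_iff_mul_eq] at h2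
  exact h2

theorem comm_par (hBAS : Stmt_BAS) (D : Rd) (K T : Set D.S) (hKT : ∀ s ∈ K, ∀ t ∈ T, D.k s t = 0)
    (p : D.W) (hp : p ∈ D.par K) (q : D.W) (hq : q ∈ D.par T) : p * q = q * p := by
  have h1 : ∀ t ∈ T, ∀ p ∈ D.par K, p * D.σ t = D.σ t * p := by
    intro t ht p hp
    unfold Rd.par at hp
    induction hp using Subgroup.closure_induction with
    | mem x hx =>
      obtain ⟨s, hs, rfl⟩ := hx
      exact comm_gen hBAS D s t (hKT s hs t ht)
    | one => simp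
    | mul x y _ _ hx hy => rw [mul_assoc, hy, ← mul_assoc, hx, mul_assoc]
    | inv x _ hx =>
      rw [inv_mul_eq_iff_eq_mul, ← mul_assoc, hx, mul_assoc, mul_inv_cancel, mul_one]
  unfold Rd.par at hq
  induction hq using Subgroup.closure_induction with
  | mem x hx =>
    obtain ⟨t, ht, rfl⟩ := hx
    exact h1 t ht p hp
  | one => simp
  | mul x y _ _ hx hy => rw [← mul_assoc, hx, mul_assoc, hy, mul_assoc]
  | inv x _ hx =>
    rw [eq_inv_mul_iff_mul_eq, ← mul_assoc, ← hx, mul_assoc, mul_inv_cancel, mul_one]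

theorem decomp (hBAS : Stmt_BAS) (D : Rd) (J K : Set D.S) (hKJ : K ⊆ J)
    (hKT : ∀ s ∈ K, ∀ t ∈ J \ K, D.k s t = 0) (h : D.W) (hh : h ∈ D.par J) :
    ∃ p ∈ D.par K, ∃ q ∈ D.par (J \ K), h = p * q := by
  unfold Rd.par at hh
  induction hh using Subgroup.closure_induction with
  | mem x hx =>
    obtain ⟨s, hs, rfl⟩ := hx
    by_cases hsK : s ∈ K
    · exact ⟨D.σ s, Subgroup.subset_closure ⟨s, hsK, rfl⟩, 1, one_mem _, by simp⟩
    · exact ⟨1, one_mem _, D.σ s, Subgroup.subset_closure ⟨s, ⟨hs, hsK⟩, rfl⟩, by simp⟩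
  | one => exact ⟨1, one_mem _, 1, one_mem _, by simp⟩
  | mul x y _ _ hx hy =>
    obtain ⟨p, hp, q, hq, rfl⟩ := hx
    obtain ⟨p', hp', q', hq', rfl⟩ := hy
    refine ⟨p * p', mul_mem hp hp', q * q', mul_mem hq hq', ?_⟩
    have := comm_par hBAS D K (J \ K) hKT p' hp' q hq
    rw [mul_assoc, ← mul_assoc q p' q', ← this, mul_assoc, mul_assoc]
  | inv x _ hx =>
    obtain ⟨p, hp, q, hq, rfl⟩ := hx
    refine ⟨p⁻¹, inv_mem hp, q⁻¹, inv_mem hq, ?_⟩
    rw [mul_inv_rev]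
    exact comm_par hBAS D K (J \ K) hKT p⁻¹ (inv_mem hp) q⁻¹ (inv_mem hq) |>.symm

theorem finite_len (hBAS : Stmt_BAS) (hLEN : Stmt_LEN) (D : Rd) (C : ℕ) :
    {w : D.W | D.len w ≤ C}.Finite := by
  obtain ⟨_, h0, _, _, h4, h5, _⟩ := hLEN D
  have hσ : ∀ s, D.σ s * D.σ s = 1 := by
    intro s
    obtain ⟨_, _, _, _, _, _, he, _, _, _, hinv, _, _, hrf, _, _⟩ := hBAS D
    have := hinv (D.e s) (he s)
    rwa [hrf] at this
  induction C with
  | zero =>
    refine (Set.finite_singleton (1 : D.W)).subset ?_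
    intro w hw
    exact (h0 w).mp (Nat.le_zero.mp hw)
  | succ C ih =>
    have h6 : {w : D.W | D.len w ≤ C + 1} ⊆
        insert 1 ((fun z : D.W × D.S => z.1 * D.σ z.2) '' ({w | D.len w ≤ C} ×ˢ Set.univ)) := by
      intro w hw
      by_cases hw1 : w = 1
      · left; exact hw1
      · right
        obtain ⟨s, hs⟩ := h5 w hw1
        refine ⟨(w * D.σ s, s), ⟨?_, Set.mem_univ _⟩, ?_⟩
        · have := h4 w s hs
          have hw' : D.len w ≤ C + 1 := hw
          simp only [Set.mem_setOf_eq]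
          omega
        · simp only
          rw [mul_assoc, hσ, mul_one]
    refine (Set.Finite.insert 1 (Set.Finite.image _ ?_)).subset h6
    exact ih.prod Set.finite_univ

theorem rho_inv_apply (D : Rd) (w : D.W) (v : D.V) : D.ρ w⁻¹ (D.ρ w v) = v := by
  rw [← Module.End.mul_apply, ← map_mul, inv_mul_cancel, map_one, Module.End.one_apply]

theorem rho_apply_inv (D : Rd) (w : D.W) (v : D.V) : D.ρ w (D.ρ w⁻¹ v) = v := by
  rw [← Module.End.mul_apply, ← map_mul, mul_inv_cancel, map_one, Module.End.one_apply]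

end F3Jx

open F3Jx in
theorem F3J_thm (hBAS : Stmt_BAS) (hSGN : Stmt_SGN) (hLEN : Stmt_LEN) (hPAR : Stmt_PAR)
    (hRNK : Stmt_RNK) (hVX1 : Stmt_VX1) : Stmt_F3J := by
  intro D J K h hE hKJ hKne hKT x hx
  by_contra hcon
  push Not at hcon
  obtain ⟨p, hp, q, hq, hpq⟩ := decomp hBAS D J K hKJ hKT h hE.1
  obtain ⟨_, _, _, _, _, _, _, _, hxneg, _, _⟩ := hVX1 D
  obtain ⟨hN, _, hmove, _, _, _⟩ := hPAR D K
  -- `par K` preserves the vectors supported in `K`
  have hpres : ∀ w ∈ D.par K, ∀ v, D.In K v → D.In K (D.ρ w v) := by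
    intro w hw v hv s hs
    have := hmove w hw v s hs
    have hvs := hv s hs
    simp only [Pi.sub_apply] at this
    linarith
  have hqv : ∀ v, D.In K v → D.ρ q v = v := fun v hv => fix_of_orth D K (J \ K) hKT q hq v hv
  have hhv : ∀ v, D.In K v → D.ρ h v = D.ρ p v := by
    intro v hv
    rw [hpq, map_mul, Module.End.mul_apply, hqv v hv]
  -- the part of `x` supported in `K`
  set xK : Set D.V := {α | α ∈ x ∧ D.In K α} with hxK
  have hsub : xK ⊆ D.ρ p '' xK := by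
    intro α hα
    have h1 := hcon α hα.1
    by_cases h2 : α ∈ D.act h x
    · obtain ⟨β, hβ, hβα⟩ := h2
      have h3 : β = D.ρ p⁻¹ α := by
        have h4 : D.ρ h (D.ρ p⁻¹ α) = α := by
          rw [hhv _ (hpres _ (inv_mem hp) _ hα.2), rho_apply_inv]
        have h5 : D.ρ h β = D.ρ h (D.ρ p⁻¹ α) := by rw [hβα, h4]
        have h6 := congrArg (D.ρ h⁻¹) h5
        rwa [rho_inv_apply, rho_inv_apply] at h6
      refine ⟨β, ⟨hβ, ?_⟩, ?_⟩
      · rw [h3]; exact hpres _ (inv_mem hp) _ hα.2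
      · rw [h3, rho_apply_inv]
    · exact absurd hα.2 (h1 h2)
  have hRtx : ∀ α ∈ x, α ∈ D.Rt := fun α hα => hx.sub hα
  obtain ⟨_, _, _, _, _, _, _, hRt, hRtneg, _, _, _, _, _, _, _⟩ := hBAS D
  have heq : D.ρ p '' xK = xK := by
    refine Set.Subset.antisymm ?_ hsub
    rintro β ⟨γ, hγ, rfl⟩
    by_contra hβ
    have hβK : D.In K (D.ρ p γ) := hpres p hp γ hγ.2
    have hβR : D.ρ p γ ∈ D.Rt := hRt γ (hRtx γ hγ.1) p
    have hneg : -(D.ρ p γ) ∈ x := by
      rcases hx.tot _ hβR with h1 | h1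
      · exact absurd ⟨h1, hβK⟩ hβ
      · exact h1
    have hnegK : D.In K (-(D.ρ p γ)) := by
      intro s hs
      rw [Pi.neg_apply, hβK s hs, neg_zero]
    obtain ⟨γ', hγ', hγ'2⟩ := hsub ⟨hneg, hnegK⟩
    have h7 : γ' = -γ := by
      have h8 := congrArg (D.ρ p⁻¹) hγ'2
      rw [rho_inv_apply, map_neg, rho_inv_apply] at h8
      exact h8
    rw [h7] at hγ'
    exact hxneg x hx γ hγ.1 hγ'.1
  have hpow : ∀ n : ℕ, ∀ α ∈ xK, D.ρ (p ^ n) α ∈ xK := by
    intro n
    induction n with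
    | zero => intro α hα; simpa using hα
    | succ n ih =>
      intro α hα
      rw [pow_succ, map_mul, Module.End.mul_apply]
      apply ih
      rw [← heq]
      exact ⟨α, hα, rfl⟩
  obtain ⟨hS1, hS2, _, _, _, _, _, _, _⟩ := hSGN D
  -- bounded length
  have hfin := hx.fin
  set c := (x \ D.Ps).ncard with hc
  have hlen : ∀ n : ℕ, D.len (p ^ n) ≤ 2 * c := by
    intro n
    have hsub2 : D.N (p ^ n) ⊆ (D.ρ (p ^ n)⁻¹ '' (x \ D.Ps)) ∪ ((fun v => -v) '' (x \ D.Ps)) := by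
      intro φ hφ
      have hφK : D.In K φ := (hN (p ^ n)).mp (pow_mem hp n) φ hφ
      have hφR : φ ∈ D.Rt := hφ.1.1
      rcases hx.tot φ hφR with h1 | h1
      · left
        refine ⟨D.ρ (p ^ n) φ, ⟨(hpow n φ ⟨h1, hφK⟩).1, hφ.2⟩, ?_⟩
        rw [rho_inv_apply]
      · right
        refine ⟨-φ, ⟨h1, hS2 φ hφ.1⟩, ?_⟩
        simp
    have hf1 : (D.ρ (p ^ n)⁻¹ '' (x \ D.Ps)).Finite := hfin.image _
    have hf2 : ((fun v : D.V => -v) '' (x \ D.Ps)).Finite := hfin.image _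
    calc D.len (p ^ n) = (D.N (p ^ n)).ncard := rfl
      _ ≤ ((D.ρ (p ^ n)⁻¹ '' (x \ D.Ps)) ∪ ((fun v => -v) '' (x \ D.Ps))).ncard :=
          Set.ncard_le_ncard hsub2 (hf1.union hf2)
      _ ≤ (D.ρ (p ^ n)⁻¹ '' (x \ D.Ps)).ncard + ((fun v : D.V => -v) '' (x \ D.Ps)).ncard :=
          Set.ncard_union_le _ _
      _ ≤ c + c := add_le_add (Set.ncard_image_le hfin) (Set.ncard_image_le hfin)
      _ = 2 * c := by ring
  -- pigeonhole
  have hpf : ∃ n : ℕ, 0 < n ∧ p ^ n = 1 := by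
    have hFin : Set.Finite {w : D.W | D.len w ≤ 2 * c} := finite_len hBAS hLEN D (2 * c)
    have hmaps : Set.MapsTo (fun n : ℕ => p ^ n) Set.univ {w : D.W | D.len w ≤ 2 * c} :=
      fun n _ => hlen n
    obtain ⟨i, _, j, _, hij, hpij⟩ :=
      Set.Infinite.exists_lt_map_eq_of_mapsTo Set.infinite_univ hmaps hFin
    refine ⟨j - i, Nat.sub_pos_of_lt hij, ?_⟩
    have h9 : p ^ (j - i) * p ^ i = p ^ i := by
      rw [← pow_add, Nat.sub_add_cancel hij.le]
      exact hpij.symm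
    exact mul_eq_right.mp h9
  obtain ⟨n, hn, hpn⟩ := hpf
  have hcomm : Commute p q := comm_par hBAS D K (J \ K) hKT p hp q hq
  have hhn : h ^ n = q ^ n := by
    rw [hpq, hcomm.mul_pow, hpn, one_mul]
  have hmem : h ^ n ∈ D.cp 1 (J \ K) := by
    rw [hhn]
    unfold Rd.cp
    refine ⟨q ^ n, pow_mem hq n, ?_⟩
    simp
  have hle := hE.2 n hn 1 (J \ K) hmem
  have hle2 : D.cp 1 J ≤ D.cp 1 (J \ K) := by
    intro z hz
    unfold Rd.cp at hz
    obtain ⟨y, hy, rfl⟩ := hz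
    have : (MulAut.conj (1 : D.W)).toMonoidHom y = y := by simp
    rw [this]
    exact hle hy
  have hr := (hRNK D 1 1 J (J \ K) hle2).1
  have hlt : (J \ K).ncard < J.ncard := by
    apply Set.ncard_lt_ncard _ (Set.toFinite J)
    refine ⟨Set.diff_subset, fun hJ => ?_⟩
    obtain ⟨s, hs⟩ := hKne
    exact (hJ (hKJ hs)).2 hs
  omega

end Pool.CS
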